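import Pool.Agent.W_f620c_h49.LP

/-!
Explicit consequences.
-/

set_option autoImplicit false
set_option linter.unusedSectionVars false
set_option linter.deprecated false

namespace CubZ

open Finset

variable {d : ℕ} {V : Finset (Pt d)} {v w : Pt d}

lemma choose_bound {i s : ℕ} (hs : s ≤ d - 2) (hd : 3 ≤ d) (hi : i < d) :
    d * 2 ^ d * s.choose (d - 1 - i) ≤ i * 2 ^ (i + 1) * d.choose i * 2 ^ s := by
  rcases Nat.lt_or_ge s (d - 1 - i) with h | h
  · rw [Nat.choose_eq_zero_of_lt h, mul_zero]; exact Nat.zero_le _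
  · have hi1 : 1 ≤ i := by omega
    obtain ⟨j, rfl⟩ : ∃ j, i = j + 1 := ⟨i - 1, by omega⟩
    obtain ⟨m, rfl⟩ : ∃ m, d = m + 2 := ⟨d - 2, by omega⟩
    have h1 : s.choose (m + 2 - 1 - (j + 1)) ≤ (m + 1).choose j := by
      have e1 : m + 2 - 1 - (j + 1) = m - j := by omega
      have e2 : m + 2 - 2 = m := rfl
      rw [e2] at hs
      rw [e1]
      calc s.choose (m - j) ≤ m.choose (m - j) := Nat.choose_le_choose _ hs
        _ = m.choose j := Nat.choose_symm (by omega)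
        _ ≤ (m + 1).choose j := Nat.choose_le_choose _ (Nat.le_succ m)
    have h2 : (m + 2) * (m + 1).choose j = (m + 2).choose (j + 1) * (j + 1) :=
      Nat.add_one_mul_choose_eq (m + 1) j
    have h3 : 2 ^ (m + 2) ≤ 2 ^ (j + 1 + 1) * 2 ^ s := by
      rw [← pow_add]
      exact Nat.pow_le_pow_right (by norm_num) (by omega)
    calc (m + 2) * 2 ^ (m + 2) * s.choose (m + 2 - 1 - (j + 1))
        ≤ (m + 2) * 2 ^ (m + 2) * (m + 1).choose j := Nat.mul_le_mul_left _ h1
      _ = ((m + 2) * (m + 1).choose j) * 2 ^ (m + 2) := by ring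
      _ ≤ ((m + 2) * (m + 1).choose j) * (2 ^ (j + 1 + 1) * 2 ^ s) := Nat.mul_le_mul_left _ h3
      _ = _ := by rw [h2]; ring

theorem upper_all (hd : 3 ≤ d) (hV : IsPolytope V) (hC : Cubical V) {i : ℕ} (hi : i < d) :
    2 ^ i * (fnum V i : ℝ) ≤ d.choose i * (V.card : ℝ) *
      (1 + i * 2 ^ (i + 1) * (V.card - 2 ^ d) / (d * 2 ^ d)) := by
  have hd0 : (0 : ℝ) < d * 2 ^ d := by
    have : (0 : ℝ) < d := by exact_mod_cast (by omega : 0 < d)
    positivity
  have key : ∀ s, s ≤ d - 2 → (s.choose (d - 1 - i) : ℝ) ≤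
      (i * 2 ^ (i + 1) * d.choose i / (d * 2 ^ d)) * 2 ^ s := by
    intro s hs
    have h1 := choose_bound (d := d) (i := i) hs hd hi
    have h2 : (d : ℝ) * 2 ^ d * (s.choose (d - 1 - i) : ℝ) ≤
        i * 2 ^ (i + 1) * d.choose i * 2 ^ s := by exact_mod_cast h1
    rw [div_mul_eq_mul_div, le_div_iff₀ hd0]
    linarith
  have h := upper hd hV hC hi (i * 2 ^ (i + 1) * d.choose i / (d * 2 ^ d)) 0 (by positivity)
    (by
      intro r hr1 hr2
      have h1 := key r hr2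
      have h2 := key (d - 1 - r) (by omega)
      linarith)
  calc 2 ^ i * (fnum V i : ℝ) ≤ _ := h
    _ = _ := by
      field_simp
      ring

theorem upper_one (hd : 4 ≤ d) (hV : IsPolytope V) (hC : Cubical V) :
    2 * (fnum V 1 : ℝ) ≤ (V.card : ℝ) * (d + (V.card - 2 ^ d) / (2 ^ (d - 2) + 2)) := by
  have hpos : (0 : ℝ) < 2 ^ (d - 2) + 2 := by positivity
  have h := upper (by omega) hV hC (i := 1) (by omega) (1 / (2 ^ (d - 2) + 2)) 0 (by positivity)
    (by
      intro r hr1 hr2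
      have hb : (0 : ℝ) ≤ 1 / (2 ^ (d - 2) + 2) * (2 ^ r + 2 ^ (d - 1 - r)) := by positivity
      have e0 : d - 1 - 1 = d - 2 := by omega
      rw [e0]
      by_cases h1 : r = 1
      · subst h1
        have e1 : d - 1 - 1 = d - 2 := by omega
        rw [e1, Nat.choose_self, Nat.choose_eq_zero_of_lt (by omega : 1 < d - 2)]
        have : (1 : ℝ) / (2 ^ (d - 2) + 2) * (2 ^ 1 + 2 ^ (d - 2)) = 1 := by
          rw [pow_one, add_comm (2 : ℝ), one_div, inv_mul_cancel₀ hpos.ne']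
        rw [this]
        norm_num
      by_cases h2 : r = d - 2
      · subst h2
        have e1 : d - 1 - (d - 2) = 1 := by omega
        rw [e1, Nat.choose_self, Nat.choose_eq_zero_of_lt (by omega : 1 < d - 2)]
        have : (1 : ℝ) / (2 ^ (d - 2) + 2) * (2 ^ (d - 2) + 2 ^ 1) = 1 := by
          rw [pow_one, one_div, inv_mul_cancel₀ hpos.ne']
        rw [this]
        norm_num
      · rw [Nat.choose_eq_zero_of_lt (by omega : r < d - 2),
          Nat.choose_eq_zero_of_lt (by omega : d - 1 - r < d - 2)]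
        linarith)
  rw [Nat.choose_one_right] at h
  calc 2 * (fnum V 1 : ℝ) = 2 ^ 1 * (fnum V 1 : ℝ) := by ring
    _ ≤ _ := h
    _ = _ := by
      field_simp
      ring

lemma two_pow_conv {a b r s : ℕ} (hab : a ≤ b) (hba : b ≤ a + 1) (h : r + s = a + b) :
    (2 : ℝ) ^ a + 2 ^ b ≤ 2 ^ r + 2 ^ s := by
  wlog hrs : r ≤ s generalizing r s
  · have := this (r := s) (s := r) (by omega) (by omega)
    linarith
  have hra : r ≤ a := by omega
  obtain ⟨t, rfl⟩ : ∃ t, a = r + t := ⟨a - r, by omega⟩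
  have hs : s = b + t := by omega
  subst hs
  have h1 : (2 : ℝ) ^ r ≤ 2 ^ b := pow_le_pow_right₀ (by norm_num) (by omega)
  have h2 : (1 : ℝ) ≤ 2 ^ t := one_le_pow₀ (by norm_num)
  rw [pow_add, pow_add]
  nlinarith [mul_nonneg (sub_nonneg.2 h1) (sub_nonneg.2 h2)]

theorem upper_facets (hd : 3 ≤ d) (hV : IsPolytope V) (hC : Cubical V) {a b : ℕ} (hab : a ≤ b)
    (hba : b ≤ a + 1) (h : a + b = d - 1) :
    2 ^ (d - 1) * (fnum V (d - 1) : ℝ) ≤
      (V.card : ℝ) * (d + 2 * (V.card - 2 ^ d) / (2 ^ a + 2 ^ b)) := by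
  have hpos : (0 : ℝ) < 2 ^ a + 2 ^ b := by positivity
  have h := upper hd hV hC (i := d - 1) (by omega) (2 / (2 ^ a + 2 ^ b)) 0 (by positivity)
    (by
      intro r hr1 hr2
      rw [Nat.sub_self, Nat.choose_zero_right, Nat.choose_zero_right]
      have h1 := two_pow_conv hab hba (r := r) (s := d - 1 - r) (by omega)
      have h2 : (2 : ℝ) ≤ 2 / (2 ^ a + 2 ^ b) * (2 ^ r + 2 ^ (d - 1 - r)) := by
        rw [div_mul_eq_mul_div, le_div_iff₀ hpos]
        linarith
      push_cast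
      linarith)
  have hc : d.choose (d - 1) = d := by
    rw [Nat.choose_symm (by omega : 1 ≤ d), Nat.choose_one_right]
  rw [hc] at h
  calc 2 ^ (d - 1) * (fnum V (d - 1) : ℝ) ≤ _ := h
    _ = _ := by
      field_simp
      ring

theorem four {V : Finset (Pt 4)} (hV : IsPolytope V) (hC : Cubical V) :
    (fnum V 1 : ℝ) ≤ V.card * (V.card + 8) / 12 ∧ (fnum V 2 : ℝ) ≤ V.card * (V.card - 4) / 8 ∧
      (fnum V 3 : ℝ) ≤ V.card * (V.card - 4) / 24 := by
  have g : ∀ (i : ℕ), i < 4 → ∀ (ρ : ℝ), 0 ≤ ρ →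
      ((Nat.choose 1 (3 - i) : ℝ) + (Nat.choose 2 (3 - i) : ℝ) ≤ ρ * 6) →
      2 ^ i * (fnum V i : ℝ) ≤ Nat.choose 4 i * (V.card : ℝ) + ρ * V.card * (V.card - 16) := by
    intro i hi ρ hρ h1
    have h := upper (by norm_num) hV hC (i := i) hi ρ 0 hρ (by
      intro r hr1 hr2
      have : r = 1 ∨ r = 2 := by omega
      rcases this with rfl | rfl
      · norm_num; linarith
      · norm_num; linarith)
    norm_num at h ⊢
    linarith
  have g1 := g 1 (by norm_num) (1 / 6) (by norm_num) (by norm_num)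
  have g2 := g 2 (by norm_num) (1 / 2) (by norm_num) (by norm_num)
  have g3 := g 3 (by norm_num) (1 / 3) (by norm_num) (by norm_num)
  have c1 : Nat.choose 4 1 = 4 := rfl
  have c2 : Nat.choose 4 2 = 6 := rfl
  have c3 : Nat.choose 4 3 = 4 := rfl
  rw [c1] at g1
  rw [c2] at g2
  rw [c3] at g3
  norm_num at g1 g2 g3
  refine ⟨by linarith, by linarith, by linarith⟩

theorem five {V : Finset (Pt 5)} (hV : IsPolytope V) (hC : Cubical V) :
    (fnum V 1 : ℝ) ≤ (V.card - 2) * (V.card + 64) / 36 ∧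
      (fnum V 2 : ℝ) ≤ (V.card - 2) * (5 * V.card + 32) / 72 ∧
      (fnum V 3 : ℝ) ≤ (V.card - 2) * (V.card - 8) / 18 ∧
      (fnum V 4 : ℝ) ≤ (V.card - 2) * (V.card - 8) / 72 := by
  have g : ∀ (i : ℕ), i < 5 → ∀ (ρ μ : ℝ), 0 ≤ ρ →
      ((Nat.choose 1 (4 - i) : ℝ) + (Nat.choose 3 (4 - i) : ℝ) ≤ ρ * 10 - 2 * μ) →
      ((Nat.choose 2 (4 - i) : ℝ) + (Nat.choose 2 (4 - i) : ℝ) ≤ ρ * 8 + 2 * μ) →
      2 ^ i * (fnum V i : ℝ) ≤ Nat.choose 5 i * (V.card : ℝ) + ρ * V.card * (V.card - 32) +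
        μ * (32 - V.card) := by
    intro i hi ρ μ hρ h1 h2
    have h := upper (by norm_num) hV hC (i := i) hi ρ μ hρ (by
      intro r hr1 hr2
      have : r = 1 ∨ r = 2 ∨ r = 3 := by omega
      rcases this with rfl | rfl | rfl
      · norm_num; linarith
      · norm_num; linarith
      · norm_num; linarith)
    norm_num at h ⊢
    linarith
  have g1 := g 1 (by norm_num) (1 / 18) (-2 / 9) (by norm_num)
    (by norm_num [Nat.choose]) (by norm_num [Nat.choose])
  have g2 := g 2 (by norm_num) (5 / 18) (-1 / 9) (by norm_num)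
    (by norm_num [Nat.choose]) (by norm_num [Nat.choose])
  have g3 := g 3 (by norm_num) (4 / 9) (2 / 9) (by norm_num) (by norm_num) (by norm_num)
  have g4 := g 4 (by norm_num) (2 / 9) (1 / 9) (by norm_num) (by norm_num) (by norm_num)
  have c1 : Nat.choose 5 1 = 5 := rfl
  have c2 : Nat.choose 5 2 = 10 := rfl
  have c3 : Nat.choose 5 3 = 10 := rfl
  have c4 : Nat.choose 5 4 = 5 := rfl
  rw [c1] at g1
  rw [c2] at g2
  rw [c3] at g3
  rw [c4] at g4
  norm_num at g1 g2 g3 g4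
  refine ⟨by linarith, by linarith, by linarith, by linarith⟩

end CubZ
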