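import Pool.Agent.W_f620c_h49.Cor

/-!
The final statement.
-/

set_option autoImplicit false
set_option linter.unusedSectionVars false
set_option linter.deprecated false

namespace CubZ

open Finset

variable {d : ℕ} {V : Finset (Pt d)}

theorem upper' (hd : 3 ≤ d) (hV : IsPolytope V) (hC : Cubical V) {i : ℕ} (hi : i < d)
    (ρ μ : ℝ) (hρ : 0 ≤ ρ)
    (hφ : ∀ r, 1 ≤ r → r ≤ d - 2 → (r.choose (d - 1 - i) : ℝ) + ((d - 1 - r).choose (d - 1 - i) : ℝ)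
      ≤ ρ * (2 ^ r + 2 ^ (d - 1 - r)) + 2 * μ * (-1) ^ r) :
    2 ^ i * (fnum V i : ℝ) ≤ d.choose i * (V.card : ℝ) +
      (V.card - 2 ^ d) * (ρ * V.card - (if Odd d then μ else 0)) := by
  have h := upper hd hV hC hi ρ μ hρ hφ
  rcases Nat.even_or_odd d with he | ho
  · rw [if_neg (Nat.not_odd_iff_even.2 he)]
    have : Odd (d - 1) := by
      rw [Nat.odd_iff]; rw [Nat.even_iff] at he; omega
    rw [this.neg_one_pow] at h
    linarith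
  · rw [if_pos ho]
    have : Even (d - 1) := by
      rw [Nat.even_iff]; rw [Nat.odd_iff] at ho; omega
    rw [this.neg_one_pow] at h
    linarith

theorem final (d : ℕ) (hd : 3 ≤ d) (V : Finset (Pt d)) (hV : IsPolytope V) (hC : Cubical V)
    (n : ℝ) (hn : n = V.card) :
    (∀ i < d, d.choose i * n ≤ 2 ^ i * fnum V i ∧
      2 ^ i * fnum V i ≤ d.choose i * n * (1 + i * 2 ^ (i + 1) * (n - 2 ^ d) / (d * 2 ^ d))) ∧
    (4 ≤ d → fnum V 1 ≤ n / 2 * (d + (n - 2 ^ d) / (2 ^ (d - 2) + 2))) ∧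
    (∀ a b : ℕ, a ≤ b → b ≤ a + 1 → a + b = d - 1 →
      fnum V (d - 1) ≤ n / 2 ^ (d - 1) * (d + 2 * (n - 2 ^ d) / (2 ^ a + 2 ^ b))) ∧
    (∀ i < d, ∀ ρ μ : ℝ, 0 ≤ ρ →
      (∀ r, 1 ≤ r → r ≤ d - 2 → (r.choose (d - 1 - i) : ℝ) + ((d - 1 - r).choose (d - 1 - i) : ℝ)
        ≤ ρ * (2 ^ r + 2 ^ (d - 1 - r)) + 2 * μ * (-1) ^ r) →
      2 ^ i * fnum V i ≤ d.choose i * n + (n - 2 ^ d) * (ρ * n - (if Odd d then μ else 0))) ∧
    (d = 4 → fnum V 1 ≤ n * (n + 8) / 12 ∧ fnum V 2 ≤ n * (n - 4) / 8 ∧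
      fnum V 3 ≤ n * (n - 4) / 24) ∧
    (d = 5 → fnum V 1 ≤ (n - 2) * (n + 64) / 36 ∧ fnum V 2 ≤ (n - 2) * (5 * n + 32) / 72 ∧
      fnum V 3 ≤ (n - 2) * (n - 8) / 18 ∧ fnum V 4 ≤ (n - 2) * (n - 8) / 72) := by
  subst hn
  refine ⟨fun i hi => ⟨?_, upper_all hd hV hC hi⟩, fun h4 => ?_, fun a b hab hba h => ?_,
    fun i hi ρ μ hρ hφ => upper' hd hV hC hi ρ μ hρ hφ, ?_, ?_⟩
  · exact_mod_cast lower (by omega) hV hC hi
  · have := upper_one h4 hV hC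
    linarith
  · have h1 := upper_facets hd hV hC hab hba h
    have hpos : (0 : ℝ) < 2 ^ (d - 1) := by positivity
    rw [div_mul_eq_mul_div, le_div_iff₀ hpos]
    linarith
  · rintro rfl
    exact four hV hC
  · rintro rfl
    exact five hV hC

end CubZ
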