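import Pool.Agent.W_f620_h46.Bounds

/-!
The numbers `h_r(v)` (facets at `v` with `r` negative coordinates in a generic direction) are at
least one, and equal to one for `r = 0` and `r = d - 1`.
-/

set_option autoImplicit false
set_option linter.unusedSectionVars false
set_option linter.deprecated false

namespace CubZ

open Finset

variable {d : ℕ} {V : Finset (Pt d)} {v w : Pt d}

namespace Loc

lemma gens_adj {F G : Finset (Pt d)} (hF : F ∈ FV V v) (_hG : G ∈ FV V v)
    {z : Pt d} (hz : z ∈ gens V F v)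
    (hadj : ∀ τ, IsFace V τ → τ ⊆ F → v ∈ τ → z ∉ τ → τ ⊆ G) {y : Pt d}
    (hy : y ∈ gens V F v) (hyz : y ≠ z) : y ∈ gens V G v := by
  classical
  have hF' := mem_FV.1 hF
  have h1 := mem_gens.1 hy
  refine mem_gens.2 ⟨?_, h1.2.1, h1.2.2⟩
  refine hadj {v, y} h1.2.2 ?_ (by simp) ?_ (by simp)
  · intro x hx
    simp only [mem_insert, mem_singleton] at hx
    rcases hx with rfl | rfl
    · exact hF'.2.2.1
    · exact gens_sub hy
  · simp only [mem_insert, mem_singleton, not_or]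
    exact ⟨(mem_gens.1 hz).2.1, fun h => hyz h.symm⟩

/-- For every `k ≤ d - 1` some facet at `v` has exactly `k` negative coordinates. -/
lemma exists_card_nf (L : Loc V v w) (hV : IsPolytope V) (hC : Cubical V) (hFV : (FV V v).Nonempty)
    {k : ℕ} (hk : k ≤ d - 1) : ∃ F ∈ FV V v, (L.nf F).card = k := by
  classical
  have hex : ∀ τ : Finset (Pt d), ∃ F, τ ∈ TV V v k →
      F ∈ FV V v ∧ τ ⊆ F ∧ ∀ y ∈ gens V F v, y ∉ τ → 0 < L.c F y := by
    intro τ
    by_cases hτ : τ ∈ TV V v k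
    · have h := mem_TV.1 hτ
      obtain ⟨F, h1, h2, h3⟩ := L.exists_F hV hC h.1 h.2.1 h.2.2.1
      exact ⟨F, fun _ => ⟨h1, h2, h3⟩⟩
    · exact ⟨∅, fun h => absurd h hτ⟩
  choose Fm hFm using hex
  have hsubface : ∀ G ∈ FV V v, ∀ S ⊆ gens V G v, S.card = k →
      ∃ τ ∈ TV V v k, τ ⊆ G ∧ gens V τ v = S := by
    intro G hG S hS hSk
    have hG' := mem_FV.1 hG
    obtain ⟨hcube, -⟩ := isCube_of_card' hC hG'.1 hG'.2.1 hG'.2.2.2
    obtain ⟨τ, h1, h2, h3, h4, h5⟩ := exists_sub hcube hG'.2.2.1 hS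
    refine ⟨τ, mem_TV.2 ⟨h1, ?_, h3, by rw [h5, hSk]⟩, h2, h4⟩
    rintro rfl
    exact hG'.2.1 (Subset.antisymm hG'.1.1 h2)
  have hne : (TV V v k).Nonempty := by
    obtain ⟨G, hG⟩ := hFV
    have hG' := mem_FV.1 hG
    obtain ⟨hcube, -⟩ := isCube_of_card' hC hG'.1 hG'.2.1 hG'.2.2.2
    have hgc := card_gens hcube hG'.2.2.1
    obtain ⟨S, hS, hSk⟩ := exists_subset_card_eq (s := gens V G v) (n := k) (by rw [hgc]; exact hk)
    obtain ⟨τ, hτ, -⟩ := hsubface G hG S hS hSk
    exact ⟨τ, hτ⟩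
  obtain ⟨τ, hτ, hmin⟩ := Finset.exists_min_image (TV V v k) (fun τ => L.l (Fm τ) L.u) hne
  obtain ⟨hF, hτF, hpos⟩ := hFm τ hτ
  set F := Fm τ with hFdef
  have hτ' := mem_TV.1 hτ
  have hF' := mem_FV.1 hF
  obtain ⟨hcube, -⟩ := isCube_of_card' hC hF'.1 hF'.2.1 hF'.2.2.2
  obtain ⟨hcubeτ, -⟩ := isCube_of_card' hC hτ'.1 hτ'.2.1 hτ'.2.2.2
  have hgτ := card_gens hcubeτ hτ'.2.2.1
  refine ⟨F, hF, ?_⟩
  rw [← hgτ]
  congr 1
  apply Subset.antisymm
  · intro y hy
    rw [Loc.nf, mem_filter] at hy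
    have hyτ : y ∈ τ := by
      by_contra hcon
      exact absurd (hpos y hy.1 hcon) (not_lt.mpr hy.2.le)
    exact mem_gens.2 ⟨hyτ, (mem_gens.1 hy.1).2⟩
  · intro z hz
    by_contra hznf
    have hzF : z ∈ gens V F v := gens_mono hτF hz
    have hcz : 0 < L.c F z := by
      refine lt_of_le_of_ne (not_lt.1 (fun hneg => hznf ?_)) (L.hc F hF z hzF).symm
      rw [Loc.nf, mem_filter]
      exact ⟨hzF, hneg⟩
    obtain ⟨G, hG, hzG, hadj⟩ := exists_adj hC hF hzF
    have hG' := mem_FV.1 hG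
    obtain ⟨hcubeG, -⟩ := isCube_of_card' hC hG'.1 hG'.2.1 hG'.2.2.2
    have hgG := card_gens hcubeG hG'.2.2.1
    have hgF := card_gens hcube hF'.2.2.1
    have hsub : (gens V F v).erase z ⊆ gens V G v := by
      intro y hy
      rw [mem_erase] at hy
      exact gens_adj hF hG hzF hadj hy.2 hy.1
    obtain ⟨z', hz'G, hz'⟩ : ∃ z' ∈ gens V G v, z' ∉ (gens V F v).erase z := by
      by_contra hcon
      push Not at hcon
      have h1 := card_le_card (show gens V G v ⊆ (gens V F v).erase z from hcon)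
      have h2 : 0 < (gens V F v).card := card_pos.2 ⟨z, hzF⟩
      rw [card_erase_of_mem hzF] at h1
      omega
    have hz'F : z' ∉ F := by
      intro h
      apply hz'
      rw [mem_erase]
      refine ⟨?_, mem_gens.2 ⟨h, (mem_gens.1 hz'G).2⟩⟩
      rintro rfl
      exact hzG (gens_sub hz'G)
    have hS : insert z' ((gens V τ v).erase z) ⊆ gens V G v := by
      intro y hy
      rw [mem_insert] at hy
      rcases hy with rfl | hy
      · exact hz'G
      · rw [mem_erase] at hy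
        exact hsub (mem_erase.2 ⟨hy.1, gens_mono hτF hy.2⟩)
    have hScard : (insert z' ((gens V τ v).erase z)).card = k := by
      rw [card_insert_of_notMem, card_erase_of_mem hz, hgτ]
      · have : 0 < (gens V τ v).card := card_pos.2 ⟨z, hz⟩
        omega
      · intro h
        exact hz'F (hτF (gens_sub (mem_of_mem_erase h)))
    obtain ⟨τ'', hτ'', hτG, hgτ''⟩ := hsubface G hG _ hS hScard
    obtain ⟨hF2, hτF2, hpos2⟩ := hFm τ'' hτ''
    have hle := hmin τ'' hτ''
    set F2 := Fm τ'' with hF2def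
    have hterm : ∀ y ∈ gens V F v, L.c F y * (L.l F2 y - L.l F2 v) ≤ 0 := by
      intro y hy
      by_cases hyF2 : y ∈ F2
      · rw [(L.hl F2 hF2).2.1 y hyF2, sub_self, mul_zero]
      · have h4 := (L.hl F2 hF2).2.2 y (hF'.1.1 (gens_sub hy)) hyF2
        have hcy : 0 < L.c F y := by
          by_cases hyz : y = z
          · rw [hyz]; exact hcz
          · refine hpos y hy fun hyτ => hyF2 (hτF2 ?_)
            have : y ∈ gens V τ'' v := by
              rw [hgτ'', mem_insert, mem_erase]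
              exact Or.inr ⟨hyz, mem_gens.2 ⟨hyτ, (mem_gens.1 hy).2⟩⟩
            exact gens_sub this
        exact (mul_neg_of_pos_of_neg hcy (sub_neg.2 h4)).le
    have hval := L.val hF hF2
    have hs : ∑ y ∈ gens V F v, L.c F y * (L.l F2 y - L.l F2 v) ≤ 0 := sum_nonpos hterm
    have hs0 : ∑ y ∈ gens V F v, L.c F y * (L.l F2 y - L.l F2 v) = 0 := by linarith
    have hzero := (sum_eq_zero_iff_of_nonpos hterm).1 hs0
    have hFsub : F ⊆ F2 := by
      refine sub_of_gens hcube hF'.1 (mem_FV.1 hF2).1 hF'.2.2.1 (mem_FV.1 hF2).2.2.1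
        (fun y hy => ?_)
      by_contra hyG
      have h4 := (L.hl F2 hF2).2.2 y (hF'.1.1 (gens_sub hy)) hyG
      rcases mul_eq_zero.1 (hzero y hy) with h | h
      · exact L.hc F hF y hy h
      · linarith
    have heq : F = F2 := eq_of_subset_of_card_le hFsub (by rw [hF'.2.2.2, (mem_FV.1 hF2).2.2.2])
    apply hz'F
    rw [heq]
    apply hτF2
    have : z' ∈ gens V τ'' v := by rw [hgτ'']; exact mem_insert_self _ _
    exact gens_sub this

end Loc

end CubZ
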