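import Pool.Agent.W_f620c_h49.Tot

/-!
Bounds for the face numbers from the relations and `∑ 2^k f_k ≤ n (n - 1)`.
-/

set_option autoImplicit false
set_option linter.unusedSectionVars false
set_option linter.deprecated false

namespace CubZ

open Finset

variable {d : ℕ} {V : Finset (Pt d)} {v w : Pt d}

lemma sum_choose_range {i : ℕ} (hi : i < d) :
    ∑ r ∈ range d, r.choose (d - 1 - i) = d.choose i := by
  obtain ⟨m, rfl⟩ : ∃ m, d = m + 1 := ⟨d - 1, by omega⟩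
  have h1 := Nat.sum_Icc_choose m (m - i)
  have h2 : (m + 1).choose (m - i + 1) = (m + 1).choose i := by
    rw [← Nat.choose_symm (by omega : i ≤ m + 1)]
    congr 1
    omega
  rw [← h2, ← h1, Nat.add_sub_cancel]
  symm
  refine sum_subset (fun r hr => ?_) (fun r hr hr' => ?_)
  · rw [mem_Icc] at hr
    rw [mem_range]; omega
  · rw [mem_range] at hr
    rw [mem_Icc] at hr'
    exact Nat.choose_eq_zero_of_lt (by omega)

lemma sum_choose_range' {i : ℕ} (hi : i < d) :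
    ∑ r ∈ range d, (d - 1 - r).choose (d - 1 - i) = d.choose i := by
  rw [← sum_choose_range hi, ← sum_range_reflect]
  refine sum_congr rfl fun j hj => ?_
  congr 1
  have := mem_range.1 hj
  omega

lemma sum_two_pow {r : ℕ} (hr : r < d) : ∑ k ∈ range d, r.choose (d - 1 - k) = 2 ^ r := by
  obtain ⟨m, rfl⟩ : ∃ m, d = m + 1 := ⟨d - 1, by omega⟩
  have h1 : ∑ k ∈ range (m + 1), r.choose (m + 1 - 1 - k) = ∑ k ∈ range (m + 1), r.choose k :=
    sum_range_reflect _ _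
  rw [h1, ← Nat.sum_range_choose r]
  symm
  refine sum_subset (range_subset_range.2 (by omega)) (fun j _ hj => ?_)
  exact Nat.choose_eq_zero_of_lt (by simpa using hj)

lemma fnum_eq (hC : Cubical V) (i : ℕ) : fnum V i = (T V V i).card := by
  classical
  rw [fnum, ← Set.ncard_coe_finset]
  congr 1
  ext F
  rw [mem_coe, mem_T]
  constructor
  · rintro ⟨h1, h2, h3⟩
    exact ⟨h1.1, h1, h2, by rw [← h3]; exact (hC F h1 h2).card⟩
  · rintro ⟨-, h1, h2, h3⟩
    exact ⟨h1, h2, (isCube_of_card' hC h1 h2 h3).2⟩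

theorem lower (hd : 1 ≤ d) (hV : IsPolytope V) (hC : Cubical V) {i : ℕ} (hi : i < d) :
    d.choose i * V.card ≤ 2 ^ i * fnum V i := by
  obtain ⟨H, -, hB, -, hH, -, -⟩ := relations' hd hV hC
  rw [fnum_eq hC, hB i (by omega), ← sum_choose_range hi, sum_mul]
  exact sum_le_sum fun r hr => Nat.mul_le_mul_left _ (hH r (mem_range.1 hr))

theorem upper (hd : 3 ≤ d) (hV : IsPolytope V) (hC : Cubical V) {i : ℕ} (hi : i < d)
    (ρ μ : ℝ) (hρ : 0 ≤ ρ)
    (hφ : ∀ r, 1 ≤ r → r ≤ d - 2 → (r.choose (d - 1 - i) : ℝ) + ((d - 1 - r).choose (d - 1 - i) : ℝ)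
      ≤ ρ * (2 ^ r + 2 ^ (d - 1 - r)) + 2 * μ * (-1) ^ r) :
    2 ^ i * (fnum V i : ℝ) ≤ d.choose i * (V.card : ℝ) + ρ * V.card * (V.card - 2 ^ d) +
      μ * ((1 + (-1) ^ (d - 1)) / 2) * (2 ^ d - V.card) := by
  obtain ⟨H, hA, hB, hE, hH, hH0, hH1⟩ := relations' (by omega) hV hC
  have hT := total_le hd hV hC
  rw [fnum_eq hC]
  set n : ℝ := (V.card : ℝ) with hn
  set f : ℝ := ((T V V i).card : ℝ) with hf
  set Tt : ℝ := ∑ k ∈ range d, (2 : ℝ) ^ k * ((T V V k).card : ℝ) with hTt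
  have hTt' : Tt + n ≤ n ^ 2 := by
    rw [hTt, hn]; exact_mod_cast hT
  set φ : ℕ → ℝ := fun r => ρ * (2 ^ r + 2 ^ (d - 1 - r)) + 2 * μ * (-1) ^ r -
    ((r.choose (d - 1 - i) : ℝ) + ((d - 1 - r).choose (d - 1 - i) : ℝ)) with hφdef
  have h1 : ∑ r ∈ range d, φ r * n ≤ ∑ r ∈ range d, φ r * (H r : ℝ) := by
    refine sum_le_sum fun r hr => ?_
    rw [mem_range] at hr
    by_cases h0 : r = 0
    · rw [h0, hH0]
    by_cases h1 : r = d - 1
    · rw [h1, hH1]
    refine mul_le_mul_of_nonneg_left ?_ ?_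
    · rw [hn]; exact_mod_cast hH r hr
    · have := hφ r (by omega) (by omega)
      simp only [hφdef]
      linarith
  have sA : ∑ r ∈ range d, ((d - 1 - r).choose (d - 1 - i) : ℝ) * (H r : ℝ) = 2 ^ i * f := by
    rw [hf]; exact_mod_cast (hA i (by omega)).symm
  have sB : ∑ r ∈ range d, (r.choose (d - 1 - i) : ℝ) * (H r : ℝ) = 2 ^ i * f := by
    rw [hf]; exact_mod_cast (hB i (by omega)).symm
  have sT : ∑ r ∈ range d, (2 : ℝ) ^ r * (H r : ℝ) = Tt := by
    have : ∀ r ∈ range d, (2 : ℝ) ^ r * (H r : ℝ) =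
        ∑ k ∈ range d, (r.choose (d - 1 - k) : ℝ) * (H r : ℝ) := by
      intro r hr
      rw [← sum_mul]
      congr 1
      exact_mod_cast (sum_two_pow (mem_range.1 hr)).symm
    rw [sum_congr rfl this, sum_comm, hTt]
    refine sum_congr rfl fun k hk => ?_
    have := hB k (by have := mem_range.1 hk; omega)
    exact_mod_cast this.symm
  have sT' : ∑ r ∈ range d, (2 : ℝ) ^ (d - 1 - r) * (H r : ℝ) = Tt := by
    have : ∀ r ∈ range d, (2 : ℝ) ^ (d - 1 - r) * (H r : ℝ) =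
        ∑ k ∈ range d, ((d - 1 - r).choose (d - 1 - k) : ℝ) * (H r : ℝ) := by
      intro r hr
      rw [← sum_mul]
      congr 1
      exact_mod_cast (sum_two_pow (show d - 1 - r < d by omega)).symm
    rw [sum_congr rfl this, sum_comm, hTt]
    refine sum_congr rfl fun k hk => ?_
    have := hA k (by have := mem_range.1 hk; omega)
    exact_mod_cast this.symm
  have sE : ∑ r ∈ range d, (-1 : ℝ) ^ r * (H r : ℝ) = 2 ^ (d - 1) * (1 + (-1) ^ (d - 1)) := by
    exact_mod_cast hE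
  have eH : ∑ r ∈ range d, φ r * (H r : ℝ) =
      ρ * (∑ r ∈ range d, (2 : ℝ) ^ r * (H r : ℝ) +
        ∑ r ∈ range d, (2 : ℝ) ^ (d - 1 - r) * (H r : ℝ)) +
      2 * μ * (∑ r ∈ range d, (-1 : ℝ) ^ r * (H r : ℝ)) -
      (∑ r ∈ range d, (r.choose (d - 1 - i) : ℝ) * (H r : ℝ) +
        ∑ r ∈ range d, ((d - 1 - r).choose (d - 1 - i) : ℝ) * (H r : ℝ)) := by
    rw [← sum_add_distrib, mul_sum, mul_sum, ← sum_add_distrib, ← sum_add_distrib,
      ← sum_sub_distrib]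
    refine sum_congr rfl fun r _ => ?_
    simp only [hφdef]
    ring
  rw [sT, sT', sE, sB, sA] at eH
  have c1 : ∑ r ∈ range d, (r.choose (d - 1 - i) : ℝ) = d.choose i := by
    exact_mod_cast sum_choose_range hi
  have c2 : ∑ r ∈ range d, ((d - 1 - r).choose (d - 1 - i) : ℝ) = d.choose i := by
    exact_mod_cast sum_choose_range' hi
  have c3 : ∑ r ∈ range d, (2 : ℝ) ^ r = 2 ^ d - 1 := by
    rw [geom_sum_eq (by norm_num)]; norm_num
  have c4 : ∑ r ∈ range d, (2 : ℝ) ^ (d - 1 - r) = 2 ^ d - 1 := by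
    rw [← c3, sum_range_reflect (fun r => (2 : ℝ) ^ r)]
  have c5 : ∑ r ∈ range d, (-1 : ℝ) ^ r = (1 + (-1) ^ (d - 1)) / 2 := by
    rw [geom_sum_eq (by norm_num)]
    obtain ⟨m, rfl⟩ : ∃ m, d = m + 1 := ⟨d - 1, by omega⟩
    rw [Nat.add_sub_cancel, pow_succ]
    ring
  have en : ∑ r ∈ range d, φ r * n =
      (ρ * (∑ r ∈ range d, (2 : ℝ) ^ r + ∑ r ∈ range d, (2 : ℝ) ^ (d - 1 - r)) +
        2 * μ * (∑ r ∈ range d, (-1 : ℝ) ^ r) -
        (∑ r ∈ range d, (r.choose (d - 1 - i) : ℝ) +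
          ∑ r ∈ range d, ((d - 1 - r).choose (d - 1 - i) : ℝ))) * n := by
    rw [← sum_mul]
    congr 1
    rw [← sum_add_distrib, mul_sum, mul_sum, ← sum_add_distrib, ← sum_add_distrib,
      ← sum_sub_distrib]
  rw [c1, c2, c3, c4, c5] at en
  rw [eH, en] at h1
  have h2 : ρ * Tt ≤ ρ * (n ^ 2 - n) := mul_le_mul_of_nonneg_left (by linarith) hρ
  have h3 : (2 : ℝ) ^ d = 2 * 2 ^ (d - 1) := by
    rw [← pow_succ']; congr 1; omega
  rw [h3] at h1 ⊢
  nlinarith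

end CubZ
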