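import Pool.Agent.W_f620c_h49.HPos

/-!
The global relations with the additional facts on the numbers `H_i`.
-/

set_option autoImplicit false
set_option linter.unusedSectionVars false
set_option linter.deprecated false

namespace CubZ

open Finset

variable {d : ℕ} {V : Finset (Pt d)} {v w : Pt d}

lemma FV_nonempty (hd : 1 ≤ d) (hV : IsPolytope V) (hC : Cubical V) (hv : v ∈ V) :
    (FV V v).Nonempty := by
  obtain ⟨F, hF, -⟩ := exists_facet hV hC (hV.1 v hv) (single_ne hd hV v) (mem_singleton_self v)
  exact ⟨F, hF⟩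

theorem relations' (hd : 1 ≤ d) (hV : IsPolytope V) (hC : Cubical V) :
    ∃ H : ℕ → ℕ,
      (∀ k ≤ d - 1, 2 ^ k * (T V V k).card = ∑ i ∈ range d, (d - 1 - i).choose (d - 1 - k) * H i) ∧
      (∀ k ≤ d - 1, 2 ^ k * (T V V k).card = ∑ i ∈ range d, i.choose (d - 1 - k) * H i) ∧
      ∑ i ∈ range d, (-1 : ℤ) ^ i * H i = 2 ^ (d - 1) * (1 + (-1) ^ (d - 1)) ∧
      (∀ i < d, V.card ≤ H i) ∧ H 0 = V.card ∧ H (d - 1) = V.card := by
  classical
  -- a generic direction at every vertex
  obtain ⟨f, hf⟩ : ∃ f : Module.Dual ℝ (Pt d), f ≠ 0 := by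
    refine ⟨LinearMap.proj ⟨0, hd⟩, fun h => ?_⟩
    have := LinearMap.congr_fun h (fun _ => (1 : ℝ))
    simp at this
  have hL : ∀ v : Pt d, ∃ L : Loc V v (∑ y ∈ V, (y - v)), f L.u < 0 := fun v =>
    exists_loc hC (inner_sum v) hf
  choose L _ using hL
  have hle : ∀ v, ∀ F ∈ FV V v, ((L v).nf F).card ∈ range d := fun v F hF => by
    have := card_nf_le hC (L v) hF
    rw [mem_range]; omega
  set H : ℕ → ℕ := fun i => ∑ v ∈ V, ((FV V v).filter (fun F => ((L v).nf F).card = i)).card
    with hH
  have hsum : ∀ g : ℕ → ℕ, ∑ v ∈ V, ∑ F ∈ FV V v, g ((L v).nf F).card =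
      ∑ i ∈ range d, g i * H i := by
    intro g
    have h1 : ∀ v ∈ V, ∑ F ∈ FV V v, g ((L v).nf F).card =
        ∑ i ∈ range d, g i * ((FV V v).filter (fun F => ((L v).nf F).card = i)).card := by
      intro v _
      rw [← sum_fiberwise_of_maps_to (g := fun F => ((L v).nf F).card) (t := range d)
        (fun F hF => hle v F hF)]
      refine sum_congr rfl (fun i _ => ?_)
      rw [sum_congr rfl (g := fun _ => g i), sum_const, smul_eq_mul, mul_comm]
      intro F hF
      rw [(mem_filter.1 hF).2]
    rw [sum_congr rfl h1, sum_comm]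
    refine sum_congr rfl (fun i _ => ?_)
    rw [hH, mul_sum]
  have hA : ∀ k ≤ d - 1, 2 ^ k * (T V V k).card =
      ∑ i ∈ range d, (d - 1 - i).choose (d - 1 - k) * H i := by
    intro k hk
    rw [← sum_TV, ← hsum]
    exact sum_congr rfl (fun v _ => card_TV hV hC (L v) hk)
  have hB : ∀ k ≤ d - 1, 2 ^ k * (T V V k).card =
      ∑ i ∈ range d, i.choose (d - 1 - k) * H i := by
    intro k hk
    rw [← sum_TV, ← hsum (fun i => i.choose (d - 1 - k))]
    exact sum_congr rfl (fun v _ => card_TV' hV hC (L v) hk)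
  refine ⟨H, hA, hB, ?_, ?_, ?_, ?_⟩
  · obtain ⟨H', h1, -, h3⟩ := relations hd hV hC
    -- the first relation determines the numbers
    have key : ∀ i, i < d → H' i = H i := by
      intro i
      induction i using Nat.strong_induction_on with
      | _ i ih =>
        intro hi
        have e1 := (h1 i (by omega)).symm.trans (hA i (by omega))
        have split : ∀ K : ℕ → ℕ, ∑ j ∈ range d, (d - 1 - j).choose (d - 1 - i) * K j =
            ∑ j ∈ range i, (d - 1 - j).choose (d - 1 - i) * K j + K i := by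
          intro K
          rw [← sum_range_add_sum_Ico _ (show i + 1 ≤ d by omega), sum_range_succ,
            Nat.choose_self, one_mul, sum_eq_zero (s := Ico (i + 1) d), add_zero]
          intro j hj
          rw [mem_Ico] at hj
          rw [Nat.choose_eq_zero_of_lt (by omega), zero_mul]
        rw [split, split, sum_congr rfl (fun j hj => by
          rw [ih j (mem_range.1 hj) (by have := mem_range.1 hj; omega)])] at e1
        exact Nat.add_left_cancel e1
    rw [← h3]
    refine sum_congr rfl fun i hi => ?_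
    rw [key i (mem_range.1 hi)]
  · intro i hi
    have h1 : ∀ v ∈ V, 1 ≤ ((FV V v).filter (fun F => ((L v).nf F).card = i)).card := by
      intro v hv
      obtain ⟨F, hF, hFi⟩ := (L v).exists_card_nf hV hC (FV_nonempty hd hV hC hv)
        (k := i) (by omega)
      exact card_pos.2 ⟨F, mem_filter.2 ⟨hF, hFi⟩⟩
    calc V.card = ∑ v ∈ V, 1 := by rw [sum_const, smul_eq_mul, mul_one]
      _ ≤ _ := sum_le_sum h1
  · have h1 := hA 0 (Nat.zero_le _)
    rw [pow_zero, one_mul, card_T_zero hd hV, Nat.sub_zero, sum_eq_single 0] at h1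
    · rw [Nat.sub_zero, Nat.choose_self, one_mul] at h1
      exact h1.symm
    · intro i hi hi0
      rw [Nat.choose_eq_zero_of_lt (by rw [mem_range] at hi; omega), zero_mul]
    · intro h
      exact absurd (mem_range.2 hd) h
  · have h1 := hB 0 (Nat.zero_le _)
    rw [pow_zero, one_mul, card_T_zero hd hV, Nat.sub_zero, sum_eq_single (d - 1)] at h1
    · rw [Nat.choose_self, one_mul] at h1
      exact h1.symm
    · intro i hi hi0
      rw [Nat.choose_eq_zero_of_lt (by rw [mem_range] at hi; omega), zero_mul]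
    · intro h
      exact absurd (mem_range.2 (by omega : d - 1 < d)) h

end CubZ
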