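import Pool.Agent.W_f620c_h49.Rel

/-!
The star of a vertex: `∑ 2^k f_k ≤ n (n - 1)`.
-/

set_option autoImplicit false
set_option linter.unusedSectionVars false
set_option linter.deprecated false

namespace CubZ

open Finset

variable {d : ℕ} {V : Finset (Pt d)} {v w : Pt d}

/-- The two-colouring of the vertices. -/
lemma exists_colour (hd : 3 ≤ d) (hV : IsPolytope V) (hC : Cubical V) :
    ∃ g : Pt d → ZMod 2, ∀ x y, x ≠ y → IsFace V {x, y} → g y = g x + 1 := by
  have two : ∀ t : ZMod 2, t + t = 0 := by decide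
  obtain ⟨g, hg⟩ := exists_potential hd hV hC (fun _ _ => 1) (fun _ _ => rfl)
    (fun _ _ _ _ _ _ _ _ _ _ _ => by decide)
  refine ⟨g, fun x y hxy hf => ?_⟩
  have h := hg x y hxy hf
  have : ∀ a b : ZMod 2, (1 : ZMod 2) = a + b → b = a + 1 := by decide
  exact this _ _ h

/-- The colour of a vertex of a cube. -/
lemma colour_cube {F : Finset (Pt d)} {k : ℕ} {e : (Fin k → Bool) → Pt d}
    (he : Function.Injective e) (hF : ∀ x, x ∈ F ↔ ∃ a, e a = x)
    (hS : ∀ S ⊆ F, S.Nonempty → (IsFace V S ↔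
      ∃ c : Fin k → Option Bool, ∀ a, e a ∈ S ↔ ∀ i, ∀ b ∈ c i, a i = b))
    {g : Pt d → ZMod 2} (hg : ∀ x y, x ≠ y → IsFace V {x, y} → g y = g x + 1)
    (a b : Fin k → Bool) :
    g (e b) = g (e a) + ((univ.filter fun i => a i ≠ b i).card : ZMod 2) := by
  classical
  have key : ∀ t : Finset (Fin k), t ⊆ univ.filter (fun i => a i ≠ b i) →
      g (e (t.piecewise b a)) = g (e a) + (t.card : ZMod 2) := by
    intro t
    induction t using Finset.induction_on with
    | empty => intro _; simp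
    | insert j t hj ih =>
      intro hsub
      have h1 := ih (fun i hi => hsub (mem_insert_of_mem hi))
      have h2 : a j ≠ b j := (mem_filter.1 (hsub (mem_insert_self j t))).2
      have hfj : t.piecewise b a j = a j := piecewise_eq_of_notMem _ _ _ hj
      have h3 : (insert j t).piecewise b a = flip j (t.piecewise b a) := by
        rw [piecewise_insert]
        unfold flip
        congr 1
        rw [hfj]
        cases h4 : a j <;> cases h5 : b j <;> simp_all
      have h4 := edge_face he hF hS j (t.piecewise b a)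
      rw [h3, hg _ _ (fun h => flip_ne_self j _ (he h).symm) h4, h1, card_insert_of_notMem hj]
      push_cast
      ring
  have h1 := key _ Subset.rfl
  have h2 : (univ.filter fun i => a i ≠ b i).piecewise b a = b := by
    funext i
    by_cases hi : a i ≠ b i
    · rw [piecewise_eq_of_mem _ _ _ (mem_filter.2 ⟨mem_univ i, hi⟩)]
    · rw [piecewise_eq_of_notMem]
      · push Not at hi; exact hi
      · rw [mem_filter]; exact fun h => hi h.2
  rwa [h2] at h1

/-- The antipode of `v` in a proper face. -/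
lemma exists_antipode (hC : Cubical V) {g : Pt d → ZMod 2}
    (hg : ∀ x y, x ≠ y → IsFace V {x, y} → g y = g x + 1) {F : Finset (Pt d)} {k : ℕ}
    (hF : F ∈ TV V v k) :
    ∃ a ∈ F, g a = g v + (k : ZMod 2) ∧ ∀ G, IsFace V G → v ∈ G → a ∈ G → F ⊆ G := by
  classical
  obtain ⟨hf, hne, hvF, hcard⟩ := mem_TV.1 hF
  obtain ⟨⟨e, he, hFe, hS⟩, -⟩ := isCube_of_card' hC hf hne hcard
  obtain ⟨a, rfl⟩ := (hFe v).1 hvF
  refine ⟨e (fun i => !(a i)), (hFe _).2 ⟨_, rfl⟩, ?_, ?_⟩
  · rw [colour_cube he hFe hS hg a (fun i => !(a i))]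
    congr 2
    have : (univ.filter fun i => a i ≠ !(a i)) = univ := by
      ext i
      cases a i <;> simp
    rw [this, card_univ, Fintype.card_fin]
  · intro G hG hvG haG
    have hint : IsFace V (F ∩ G) := hf.inter hG hvF hvG
    have hm1 : e a ∈ F ∩ G := mem_inter.2 ⟨hvF, hvG⟩
    have hm2 : e (fun i => !(a i)) ∈ F ∩ G := mem_inter.2 ⟨(hFe _).2 ⟨_, rfl⟩, haG⟩
    obtain ⟨c, hc⟩ := (hS (F ∩ G) inter_subset_left ⟨e a, hm1⟩).1 hint
    have hcn : ∀ j, c j = none := by
      intro j
      cases hcj : c j with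
      | none => rfl
      | some b =>
        exfalso
        have h1 := (hc _).1 hm1 j b hcj
        have h2 := (hc _).1 hm2 j b hcj
        rw [h1] at h2
        cases b <;> simp at h2
    intro x hx
    obtain ⟨b, rfl⟩ := (hFe x).1 hx
    have : e b ∈ F ∩ G := (hc b).2 (fun i b' hb' => by rw [hcn i] at hb'; simp at hb')
    exact (mem_inter.1 this).2

/-- Proper faces at `v` of even (odd) dimension inject into a colour class. -/
lemma star_col (hC : Cubical V) {g : Pt d → ZMod 2}
    (hg : ∀ x y, x ≠ y → IsFace V {x, y} → g y = g x + 1) (b : ZMod 2) :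
    ∑ k ∈ (range d).filter (fun k : ℕ => g v + (k : ZMod 2) = b), (TV V v k).card ≤
      (V.filter (fun x => g x = b)).card := by
  classical
  have hex : ∀ F : Finset (Pt d), ∃ a, ∀ k, F ∈ TV V v k →
      a ∈ F ∧ g a = g v + (k : ZMod 2) ∧ ∀ G, IsFace V G → v ∈ G → a ∈ G → F ⊆ G := by
    intro F
    by_cases h : ∃ k, F ∈ TV V v k
    · obtain ⟨k, hk⟩ := h
      obtain ⟨a, h1, h2, h3⟩ := exists_antipode hC hg hk
      refine ⟨a, fun k' hk' => ⟨h1, ?_, h3⟩⟩
      have : k' = k := by
        have e1 := (mem_TV.1 hk).2.2.2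
        have e2 := (mem_TV.1 hk').2.2.2
        exact Nat.pow_right_injective (le_refl 2) (e2.symm.trans e1)
      rw [this]; exact h2
    · exact ⟨v, fun k hk => absurd ⟨k, hk⟩ h⟩
  choose a ha using hex
  have hU : ∑ k ∈ (range d).filter (fun k : ℕ => g v + (k : ZMod 2) = b), (TV V v k).card =
      (((range d).filter (fun k : ℕ => g v + (k : ZMod 2) = b)).biUnion
        (fun k => TV V v k)).card := by
    rw [card_biUnion]
    intro i _ j _ hij
    rw [Function.onFun, disjoint_left]
    intro F h1 h2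
    apply hij
    exact Nat.pow_right_injective (le_refl 2) ((mem_TV.1 h1).2.2.2.symm.trans (mem_TV.1 h2).2.2.2)
  rw [hU]
  refine card_le_card_of_injOn a ?_ ?_
  · intro F hF
    rw [mem_coe, mem_biUnion] at hF
    obtain ⟨k, hk, hFk⟩ := hF
    rw [mem_filter] at hk
    obtain ⟨h1, h2, -⟩ := ha F k hFk
    rw [mem_coe, mem_filter]
    exact ⟨(mem_TV.1 hFk).1.1 h1, by rw [h2]; exact hk.2⟩
  · intro F hF G hG hFG
    rw [mem_coe, mem_biUnion] at hF hG
    obtain ⟨k, -, hFk⟩ := hF
    obtain ⟨k', -, hGk⟩ := hG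
    obtain ⟨h1, -, h3⟩ := ha F k hFk
    obtain ⟨h1', -, h3'⟩ := ha G k' hGk
    apply Subset.antisymm
    · exact h3 G (mem_TV.1 hGk).1 (mem_TV.1 hGk).2.2.1 (by rw [hFG]; exact h1')
    · exact h3' F (mem_TV.1 hFk).1 (mem_TV.1 hFk).2.2.1 (by rw [← hFG]; exact h1)

end CubZ
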