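import Pool.Agent.W_f620c_h49.StarC

/-!
`∑ 2^k f_k ≤ n (n - 1)`.
-/

set_option autoImplicit false
set_option linter.unusedSectionVars false
set_option linter.deprecated false

namespace CubZ

open Finset

variable {d : ℕ} {V : Finset (Pt d)} {v w : Pt d}

/-- Euler's relation at a vertex. -/
lemma euler_at (hd : 1 ≤ d) (hV : IsPolytope V) (hC : Cubical V) (hv : v ∈ V) :
    ∑ k ∈ range d, (-1 : ℤ) ^ k * ((TV V v k).card : ℤ) = (-1) ^ (d - 1) := by
  classical
  obtain ⟨f, hf⟩ : ∃ f : Module.Dual ℝ (Pt d), f ≠ 0 := by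
    refine ⟨LinearMap.proj ⟨0, hd⟩, fun h => ?_⟩
    have := LinearMap.congr_fun h (fun _ => (1 : ℝ))
    simp at this
  obtain ⟨L, -⟩ := exists_loc hC (inner_sum (V := V) v) hf
  have h0 : (TV V v 0).card = 1 := by rw [TV_zero hd hV hv, card_singleton]
  have h1 := card_TV hV hC L (k := 0) (Nat.zero_le _)
  rw [h0, Nat.sub_zero] at h1
  have h2 : ∀ F ∈ FV V v, ∑ k ∈ range d, (-1 : ℤ) ^ k * (((L.nf F).card.choose (d - 1 - k) : ℕ) : ℤ) =
      (-1) ^ (d - 1) * (((d - 1 - (L.nf F).card).choose (d - 1) : ℕ) : ℤ) := by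
    intro F hF
    have hr := card_nf_le hC L hF
    rw [← sum_range_reflect]
    have e1 : ∀ j ∈ range d, (-1 : ℤ) ^ (d - 1 - j) *
        (((L.nf F).card.choose (d - 1 - (d - 1 - j)) : ℕ) : ℤ) =
        (-1) ^ (d - 1) * ((-1) ^ j * (((L.nf F).card.choose j : ℕ) : ℤ)) := by
      intro j hj
      rw [mem_range] at hj
      have e2 : d - 1 - (d - 1 - j) = j := by omega
      have e3 : (-1 : ℤ) ^ (d - 1) = (-1) ^ (d - 1 - j) * (-1) ^ j := by
        rw [← pow_add]; congr 1; omega
      have e4 : (-1 : ℤ) ^ j * (-1) ^ j = 1 := by rw [← mul_pow]; norm_num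
      rw [e2, e3]
      linear_combination (-((-1 : ℤ) ^ (d - 1 - j) * (((L.nf F).card.choose j : ℕ) : ℤ))) * e4
    rw [sum_congr rfl e1, ← mul_sum]
    congr 1
    have e5 : ∑ j ∈ range d, (-1 : ℤ) ^ j * (((L.nf F).card.choose j : ℕ) : ℤ) =
        ∑ j ∈ range ((L.nf F).card + 1), (-1 : ℤ) ^ j * (((L.nf F).card.choose j : ℕ) : ℤ) := by
      symm
      refine sum_subset (range_subset_range.2 (by omega)) (fun j _ hj => ?_)
      rw [Nat.choose_eq_zero_of_lt (by simpa using hj)]; simp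
    rw [e5, Int.alternating_sum_range_choose]
    by_cases h : (L.nf F).card = 0
    · rw [h]; simp
    · rw [if_neg h, Nat.choose_eq_zero_of_lt (by omega)]; simp
  have h3 : ∀ k ∈ range d, (-1 : ℤ) ^ k * ((TV V v k).card : ℤ) =
      ∑ F ∈ FV V v, (-1 : ℤ) ^ k * (((L.nf F).card.choose (d - 1 - k) : ℕ) : ℤ) := by
    intro k hk
    rw [card_TV' hV hC L (by have := mem_range.1 hk; omega), ← mul_sum]
    push_cast
    rfl
  rw [sum_congr rfl h3, sum_comm, sum_congr rfl h2, ← mul_sum]
  have h4 : ∑ F ∈ FV V v, (((d - 1 - (L.nf F).card).choose (d - 1) : ℕ) : ℤ) = 1 := by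
    exact_mod_cast h1.symm
  rw [h4, mul_one]

/-- A proper face of positive dimension has half of its vertices in each colour class. -/
lemma half_col (hC : Cubical V) {g : Pt d → ZMod 2}
    (hg : ∀ x y, x ≠ y → IsFace V {x, y} → g y = g x + 1) {F : Finset (Pt d)} {k : ℕ}
    (hF : F ∈ T V V (k + 1)) (b : ZMod 2) : (F.filter (fun x => g x = b)).card = 2 ^ k := by
  classical
  obtain ⟨-, hf, hne, hcard⟩ := mem_T.1 hF
  obtain ⟨⟨e, he, hFe, hS⟩, -⟩ := isCube_of_card' hC hf hne hcard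
  have hle : ∀ b : ZMod 2, (F.filter (fun x => g x = b)).card ≤
      (F.filter (fun x => g x = b + 1)).card := by
    intro b
    have hex : ∀ x : Pt d, ∃ y, x ∈ F → ∃ a, e a = x ∧ e (flip 0 a) = y := by
      intro x
      by_cases hx : x ∈ F
      · obtain ⟨a, ha⟩ := (hFe x).1 hx
        exact ⟨e (flip 0 a), fun _ => ⟨a, ha, rfl⟩⟩
      · exact ⟨x, fun h => absurd h hx⟩
    choose φ hφ using hex
    refine card_le_card_of_injOn φ ?_ ?_
    · intro x hx
      rw [mem_coe, mem_filter] at hx ⊢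
      obtain ⟨a, ha, hy⟩ := hφ x hx.1
      rw [← hy]
      refine ⟨(hFe _).2 ⟨_, rfl⟩, ?_⟩
      rw [hg (e a) (e (flip 0 a)) (fun h => flip_ne_self 0 _ (he h).symm)
        (edge_face he hFe hS 0 a), ha, hx.2]
    · intro x hx y hy hxy
      rw [mem_coe, mem_filter] at hx hy
      obtain ⟨a, ha, h1⟩ := hφ x hx.1
      obtain ⟨a', ha', h1'⟩ := hφ y hy.1
      rw [← h1, ← h1'] at hxy
      have := he hxy
      rw [← ha, ← ha', ← flip_flip 0 a, this, flip_flip]
  have h1 := hle b
  have h2 := hle (b + 1)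
  have h3 : b + 1 + 1 = b := by
    have : ∀ t : ZMod 2, t + 1 + 1 = t := by decide
    exact this b
  rw [h3] at h2
  have h4 : (F.filter (fun x => g x = b)).card + (F.filter (fun x => ¬ g x = b)).card = F.card :=
    card_filter_add_card_filter_not _
  have h5 : F.filter (fun x => ¬ g x = b) = F.filter (fun x => g x = b + 1) := by
    refine filter_congr fun x _ => ?_
    have : ∀ s t : ZMod 2, ¬ s = t ↔ s = t + 1 := by decide
    exact this _ _
  rw [h5, hcard, pow_succ] at h4
  omega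

lemma sum_class (hC : Cubical V) {g : Pt d → ZMod 2}
    (hg : ∀ x y, x ≠ y → IsFace V {x, y} → g y = g x + 1) (b : ZMod 2) (k : ℕ) :
    ∑ v ∈ V.filter (fun x => g x = b), (TV V v (k + 1)).card = 2 ^ k * (T V V (k + 1)).card := by
  classical
  simp only [TV_eq, card_filter]
  rw [sum_comm]
  have : ∀ F ∈ T V V (k + 1), ∑ v ∈ V.filter (fun x => g x = b), (if v ∈ F then 1 else 0) =
      2 ^ k := by
    intro F hF
    rw [← card_filter, ← half_col hC hg hF b]
    congr 1
    ext x
    simp only [mem_filter]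
    constructor
    · rintro ⟨⟨_, h1⟩, h2⟩; exact ⟨h2, h1⟩
    · rintro ⟨h1, h2⟩; exact ⟨⟨(mem_T.1 hF).1 h1, h2⟩, h1⟩
  rw [sum_congr rfl this, sum_const, smul_eq_mul, mul_comm]

lemma two_le_card (hd : 1 ≤ d) (hV : IsPolytope V) : 2 ≤ V.card := by
  obtain ⟨f, hf⟩ : ∃ f : Module.Dual ℝ (Pt d), f ≠ 0 := by
    refine ⟨LinearMap.proj ⟨0, hd⟩, fun h => ?_⟩
    have := LinearMap.congr_fun h (fun _ => (1 : ℝ))
    simp at this
  obtain ⟨x, hx, -⟩ := span_V hV hf 0
  obtain ⟨y, hy, hyx⟩ := exists_other hd hV x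
  exact one_lt_card.2 ⟨x, hx, y, hy, hyx.symm⟩

/-- `∑ 2^k f_k ≤ n (n - 1)`. -/
theorem total_le (hd : 3 ≤ d) (hV : IsPolytope V) (hC : Cubical V) :
    ∑ k ∈ range d, 2 ^ k * (T V V k).card + V.card ≤ V.card ^ 2 := by
  classical
  obtain ⟨g, hg⟩ := exists_colour hd hV hC
  set M : ZMod 2 → ℕ := fun b => (V.filter (fun x => g x = b)).card with hM
  have hsum : ∀ b, M b + M (b + 1) = V.card := by
    intro b
    have h4 : (V.filter (fun x => g x = b)).card + (V.filter (fun x => ¬ g x = b)).card = V.card :=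
      card_filter_add_card_filter_not _
    have h5 : V.filter (fun x => ¬ g x = b) = V.filter (fun x => g x = b + 1) := by
      refine filter_congr fun x _ => ?_
      have : ∀ s t : ZMod 2, ¬ s = t ↔ s = t + 1 := by decide
      exact this _ _
    rw [h5] at h4
    exact h4
  obtain ⟨m, rfl⟩ : ∃ m, d = m + 1 := ⟨d - 1, by omega⟩
  set S := ∑ k ∈ range m, 2 ^ k * (T V V (k + 1)).card with hS
  -- the star of a vertex
  have hstar : ∀ b, ∀ v ∈ V.filter (fun x => g x = b),
      (∑ k ∈ range (m + 1), ((TV V v k).card : ℤ)) + 1 ≤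
        2 * (M (b + (m : ZMod 2)) : ℤ) := by
    intro b v hv
    rw [mem_filter] at hv
    have hE := euler_at (by omega) hV hC hv.1
    have h1 := star_col (v := v) hC hg b
    have h2 := star_col (v := v) hC hg (b + 1)
    have hpar : ∀ k : ℕ, ((k : ZMod 2) = 0 ↔ Even k) ∧ ((k : ZMod 2) = 1 ↔ ¬ Even k) := by
      intro k
      rw [ZMod.natCast_eq_zero_iff_even]
      refine ⟨Iff.rfl, ?_⟩
      rw [Nat.not_even_iff_odd, ZMod.natCast_eq_one_iff_odd]
    have f1 : (range (m + 1)).filter (fun k : ℕ => g v + (k : ZMod 2) = b) =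
        (range (m + 1)).filter (fun k => Even k) := by
      refine filter_congr fun k _ => ?_
      rw [hv.2, add_eq_left]
      exact (hpar k).1
    have f2 : (range (m + 1)).filter (fun k : ℕ => g v + (k : ZMod 2) = b + 1) =
        (range (m + 1)).filter (fun k => ¬ Even k) := by
      refine filter_congr fun k _ => ?_
      rw [hv.2, add_right_inj]
      exact (hpar k).2
    rw [f1] at h1
    rw [f2] at h2
    have hsplit := sum_filter_add_sum_filter_not (range (m + 1)) (fun k => Even k)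
      (fun k => ((TV V v k).card : ℤ))
    have hsplit2 := sum_filter_add_sum_filter_not (range (m + 1)) (fun k => Even k)
      (fun k => (-1 : ℤ) ^ k * ((TV V v k).card : ℤ))
    have e1 : ∑ k ∈ (range (m + 1)).filter (fun k => Even k), (-1 : ℤ) ^ k * ((TV V v k).card : ℤ) =
        ∑ k ∈ (range (m + 1)).filter (fun k => Even k), ((TV V v k).card : ℤ) := by
      refine sum_congr rfl fun k hk => ?_
      rw [(mem_filter.1 hk).2.neg_one_pow, one_mul]
    have e2 : ∑ k ∈ (range (m + 1)).filter (fun k => ¬ Even k),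
        (-1 : ℤ) ^ k * ((TV V v k).card : ℤ) =
        - ∑ k ∈ (range (m + 1)).filter (fun k => ¬ Even k), ((TV V v k).card : ℤ) := by
      rw [← sum_neg_distrib]
      refine sum_congr rfl fun k hk => ?_
      rw [(Nat.not_even_iff_odd.1 (mem_filter.1 hk).2).neg_one_pow]
      ring
    rw [e1, e2] at hsplit2
    rw [← hsplit2] at hE
    rw [← hsplit]
    have h1' : ∑ k ∈ (range (m + 1)).filter (fun k => Even k), ((TV V v k).card : ℤ) ≤ M b := by
      exact_mod_cast h1
    have h2' : ∑ k ∈ (range (m + 1)).filter (fun k => ¬ Even k), ((TV V v k).card : ℤ) ≤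
        M (b + 1) := by
      exact_mod_cast h2
    have hm1 : m + 1 - 1 = m := rfl
    rw [hm1] at hE
    by_cases hm : Even m
    · rw [hm.neg_one_pow] at hE
      rw [(hpar m).1.2 hm, add_zero]
      linarith
    · rw [(Nat.not_even_iff_odd.1 hm).neg_one_pow] at hE
      rw [(hpar m).2.2 hm]
      linarith
  have hclass : ∀ b, (S : ℤ) + 2 * (M b : ℤ) ≤ M b * (2 * (M (b + (m : ZMod 2)) : ℤ)) := by
    intro b
    have h1 := Finset.sum_le_sum (hstar b)
    rw [sum_add_distrib, sum_comm, sum_const, sum_const, nsmul_eq_mul, nsmul_eq_mul, mul_one,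
      sum_range_succ'] at h1
    have h2 : ∑ v ∈ V.filter (fun x => g x = b), ((TV V v 0).card : ℤ) = M b := by
      rw [sum_congr rfl (g := fun _ => (1 : ℤ)), sum_const, nsmul_eq_mul, mul_one]
      intro v hv
      rw [TV_zero (by omega) hV (mem_filter.1 hv).1, card_singleton, Nat.cast_one]
    have h3 : ∑ k ∈ range m, ∑ v ∈ V.filter (fun x => g x = b), ((TV V v (k + 1)).card : ℤ) =
        (S : ℤ) := by
      rw [hS]
      push_cast
      refine sum_congr rfl fun k _ => ?_
      have := sum_class hC hg b k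
      exact_mod_cast this
    rw [h2, h3] at h1
    linarith
  have hS2 : ∑ k ∈ range (m + 1), 2 ^ k * (T V V k).card = 2 * S + V.card := by
    rw [sum_range_succ', pow_zero, one_mul, card_T_zero (by omega) hV, hS, mul_sum]
    congr 1
    refine sum_congr rfl fun k _ => by rw [pow_succ]; ring
  rw [hS2]
  have c0 := hclass 0
  have c1 := hclass 1
  have s0 := hsum 0
  rw [zero_add] at s0
  have s0' : (M 0 : ℤ) + M 1 = V.card := by exact_mod_cast s0
  have hge : ∀ b, (M b : ℤ) ≥ 0 := fun b => Int.natCast_nonneg _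
  zify
  rw [← s0']
  by_cases hm : (m : ZMod 2) = 0
  · rw [hm, add_zero] at c0 c1
    have hn2 : (2 : ℤ) ≤ (M 0 : ℤ) + M 1 := by
      rw [s0']
      exact_mod_cast two_le_card (by omega) hV
    rcases le_total (M 0 : ℤ) (M 1) with h | h
    · have := mul_nonneg (sub_nonneg.2 h)
        (show (0 : ℤ) ≤ (M 1 : ℤ) + 3 * M 0 - 2 by linarith [hge 0])
      nlinarith
    · have := mul_nonneg (sub_nonneg.2 h)
        (show (0 : ℤ) ≤ (M 0 : ℤ) + 3 * M 1 - 2 by linarith [hge 1])
      nlinarith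
  · have hm1 : (m : ZMod 2) = 1 := by
      have : ∀ t : ZMod 2, t ≠ 0 → t = 1 := by decide
      exact this _ hm
    rw [hm1] at c0 c1
    have e2 : (1 : ZMod 2) + 1 = 0 := by decide
    rw [zero_add] at c0
    rw [e2] at c1
    rcases le_total (M 0 : ℤ) (M 1) with h | h
    · nlinarith [hge 0, hge 1, sq_nonneg ((M 0 : ℤ) - M 1)]
    · nlinarith [hge 0, hge 1, sq_nonneg ((M 0 : ℤ) - M 1)]

end CubZ
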